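import Pool.Agent.H332.HT.Defs

/-!
Project HT (helper332), task HT-Q: the main inequality for two arcs.
-/

set_option autoImplicit false

namespace Pool.Agent.H139.HT

open Pool.Agent.H332.HT

/-- the vector identity -/
theorem cramer (p r u : V2) : det p r • u = det u r • p + det p u • r := by
  apply Prod.ext
  · simp only [det, Prod.smul_fst, Prod.fst_add, smul_eq_mul]
    ring
  · simp only [det, Prod.smul_snd, Prod.snd_add, smul_eq_mul]
    ring

/-- the vector of a sector -/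
noncomputable def vv (a b : V2) : V2 := -((1 / det a b) • (a + b))

theorem cr1 (p r a b : V2) : det p r • vv a b =
    -(((det a r + det b r) / det a b) • p) + ((det a p - det p b) / det a b) • r := by
  have h1 : det p r • vv a b = -((1 / det a b) • (det p r • (a + b))) := by
    unfold vv
    rw [smul_neg, smul_comm]
  rw [h1, cramer p r (a + b)]
  apply Prod.ext
  · simp only [det, Prod.smul_fst, Prod.fst_add, Prod.snd_add, Prod.fst_neg, smul_eq_mul]
    ring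
  · simp only [det, Prod.smul_snd, Prod.fst_add, Prod.snd_add, Prod.snd_neg, smul_eq_mul]
    ring

theorem cr2 (p r c d : V2) : det p r • vv c d =
    -(((det p c + det p d) / det c d) • r) + ((det r d - det c r) / det c d) • p := by
  have h1 : det p r • vv c d = -((1 / det c d) • (det p r • (c + d))) := by
    unfold vv
    rw [smul_neg, smul_comm]
  rw [h1, cramer p r (c + d)]
  apply Prod.ext
  · simp only [det, Prod.smul_fst, Prod.fst_add, Prod.snd_add, Prod.fst_neg, smul_eq_mul]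
    ring
  · simp only [det, Prod.smul_snd, Prod.fst_add, Prod.snd_add, Prod.snd_neg, smul_eq_mul]
    ring

theorem det_self (p : V2) : det p p = 0 := by unfold det; ring

theorem det_neg_right (p r : V2) : det p (-r) = det r p := by
  simp only [det, Prod.fst_neg, Prod.snd_neg]; ring

variable {K : Set V3} {q : ℝ → V2}

theorem pos0 (hq : Par K q) {s t : ℝ} (h1 : s ≤ t) (h2 : t < s + Real.pi) :
    0 ≤ det (q s) (q t) := by
  rcases eq_or_lt_of_le h1 with h | h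
  · rw [h, det_self]
  · exact (hq.pos s t h h2).le

/-- the alternative of Helly for one arc -/
theorem arc (hP : S_P) (htc : S_TC) (hinw : S_inw) (hhel : S_hel) (h1 : S_KL1) (hK : HB K)
    (hq : Par K q) {a b : ℝ} (hab : a < b) (hb : b < a + Real.pi)
    (hab2 : (1 / 2 : ℝ) • (q a - q b) ∈ IP K) (hG : ¬ Good K q a b) :
    ∃ s z s' z' : ℝ, a ≤ s ∧ s ≤ b ∧ a ≤ s' ∧ s' ≤ b ∧ ((q s, z) : V3) ∈ K ∧
      ((q s', z') : V3) ∈ K ∧ ∀ k l : ℝ, ((vv (q a) (q b), k) : V3) ∈ T K (q s', z') →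
        ((vv (q a) (q b), l) : V3) ∈ T K (q s, z) → k ≤ l := by
  set Y : Set V3 := K ∩ Prod.fst ⁻¹' (q '' Set.Icc a b) with hY
  have hYc : IsCompact Y :=
    hK.cpt.inter_right ((isCompact_Icc.image hq.cont).isClosed.preimage continuous_fst)
  have hYn : Y.Nonempty := by
    obtain ⟨x, hx, hxq⟩ := hq.mem a
    exact ⟨x, hx, a, ⟨le_refl a, hab.le⟩, hxq.symm⟩
  have hD : 0 < det (q a) (q b) := hq.pos a b hab hb
  have hlit : ∀ x ∈ Y, ∃ k : ℝ, ((vv (q a) (q b), k) : V3) ∈ C K x := by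
    rintro ⟨p, z⟩ ⟨hx, s, ⟨hs1, hs2⟩, hs⟩
    have hs' : q s = p := hs
    subst hs'
    have hp0 : q s ≠ 0 := by
      intro h
      exact hq.nint s (h ▸ (hP K hK).2.2.2.1)
    have ha1 : 0 ≤ det (q a) (q s) := pos0 hq hs1 (by linarith)
    have ha2 : 0 ≤ det (q s) (q b) := pos0 hq hs2 (by linarith)
    obtain ⟨k, hk⟩ := hinw K hK (q a) (q b) (q s) z hD hab2 hx hp0 ha1 ha2
      (h1 K hK (q a) (q b) (q s) (hq.mem a) (hq.mem b) (hq.nint a) (hq.nint b) (hq.mem s) hD ha1 ha2)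
    refine ⟨1 / det (q a) (q b) * k, ?_⟩
    have h2 := (htc K hK (q s, z) hx).2.2.1 _ hk (1 / det (q a) (q b)) (by positivity)
    have h3 : (1 / det (q a) (q b)) • ((-(q a + q b), k) : V3) =
        ((vv (q a) (q b), 1 / det (q a) (q b) * k) : V3) := by
      apply Prod.ext
      · show (1 / det (q a) (q b)) • (-(q a + q b)) = _
        rw [smul_neg]
        rfl
      · rfl
    rw [h3] at h2
    exact h2
  rcases hhel K hK Y Set.inter_subset_left hYc hYn (vv (q a) (q b)) hlit with ⟨k, hk⟩ | h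
  · exfalso
    apply hG
    refine ⟨(vv (q a) (q b), k), fun t ht1 ht2 z hz => hk _ ⟨hz, t, ⟨ht1, ht2⟩, rfl⟩⟩
  · obtain ⟨⟨p, z⟩, ⟨hx, s, ⟨hs1, hs2⟩, hs⟩, ⟨p', z'⟩, ⟨hx', s', ⟨hs1', hs2'⟩, hs'⟩, hkl⟩ := h
    have e1 : q s = p := hs
    have e2 : q s' = p' := hs'
    subst e1
    subst e2
    exact ⟨s, z, s', z', hs1, hs2, hs1', hs2', hx, hx', hkl⟩

/-- the slopes for a pair -/
theorem pair (hcone : S_cone) (h1 : S_KL1) (h2 : S_KL2) (hK : HB K) (hq : Par K q)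
    {a b c d : ℝ} (hab : a < b) (hbc : b < c) (hcd : c < d) (hda : d < a + Real.pi)
    (hab2 : (1 / 2 : ℝ) • (q a - q b) ∈ IP K) (hcd2 : (1 / 2 : ℝ) • (q c - q d) ∈ IP K)
    {s t z w : ℝ} (hs1 : a ≤ s) (hs2 : s ≤ b) (ht1 : c ≤ t) (ht2 : t ≤ d)
    (hx : ((q s, z) : V3) ∈ K) (hy : ((q t, w) : V3) ∈ K) :
    ∃ k1 k2 k1' k2' : ℝ, ((vv (q a) (q b), k1) : V3) ∈ T K (q s, z) ∧
      ((vv (q c) (q d), k2) : V3) ∈ T K (q t, w) ∧ ((vv (q a) (q b), k1') : V3) ∈ T K (q s, z) ∧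
      ((vv (q c) (q d), k2') : V3) ∈ T K (q t, w) ∧ 0 ≤ k1 + k2 ∧
      (k1 + k2 = 0 → z = 1 ∧ w = 1) ∧ k1' + k2' ≤ 0 ∧ (k1' + k2' = 0 → z = -1 ∧ w = -1) := by
  have hD1 : 0 < det (q a) (q b) := hq.pos a b hab (by linarith)
  have hD2 : 0 < det (q c) (q d) := hq.pos c d hcd (by linarith)
  have hW : 0 < det (q s) (q t) := hq.pos s t (by linarith) (by linarith)
  set W := det (q s) (q t) with hWdef
  set α1 := (det (q a) (q t) + det (q b) (q t)) / det (q a) (q b) with hα1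
  set ξ1 := (det (q a) (q s) - det (q s) (q b)) / det (q a) (q b) with hξ1
  set α2 := (det (q s) (q c) + det (q s) (q d)) / det (q c) (q d) with hα2
  set ξ2 := (det (q t) (q d) - det (q c) (q t)) / det (q c) (q d) with hξ2
  have a1 : 1 < α1 := by
    rw [hα1, lt_div_iff₀ hD1, one_mul]
    have p1 : 0 < det (q a) (q t) := hq.pos a t (by linarith) (by linarith)
    have p2 : 0 < det (q b) (q t) := hq.pos b t (by linarith) (by linarith)
    exact (h2 K hK (q a) (q b) (q t) (hq.mem a) (hq.mem b) (hq.nint t) hD1 p1.le p2.le).2 hab2 p1 p2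
  have x1 : |ξ1| ≤ 1 := by
    rw [hξ1, abs_div, abs_of_pos hD1, div_le_one hD1]
    exact h1 K hK (q a) (q b) (q s) (hq.mem a) (hq.mem b) (hq.nint a) (hq.nint b) (hq.mem s) hD1
      (pos0 hq hs1 (by linarith)) (pos0 hq hs2 (by linarith))
  have a2 : 1 < α2 := by
    rw [hα2, lt_div_iff₀ hD2, one_mul]
    have p1 : 0 < det (q s) (q c) := hq.pos s c (by linarith) (by linarith)
    have p2 : 0 < det (q s) (q d) := hq.pos s d (by linarith) (by linarith)
    have hn : -q s ∉ IP K := by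
      rw [← hq.anti s]
      exact hq.nint _
    have e1 := det_neg_right (q c) (q s)
    have e2 := det_neg_right (q d) (q s)
    have h3 := (h2 K hK (q c) (q d) (-q s) (hq.mem c) (hq.mem d) hn hD2
      (by rw [e1]; exact p1.le) (by rw [e2]; exact p2.le)).2 hcd2 (by rw [e1]; exact p1)
      (by rw [e2]; exact p2)
    rwa [e1, e2] at h3
  have x2 : |ξ2| ≤ 1 := by
    rw [hξ2, abs_div, abs_of_pos hD2, div_le_one hD2, abs_sub_comm]
    exact h1 K hK (q c) (q d) (q t) (hq.mem c) (hq.mem d) (hq.nint c) (hq.nint d) (hq.mem t) hD2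
      (pos0 hq ht1 (by linarith)) (pos0 hq ht2 (by linarith))
  have c1 := hcone K hK (q s) (q t) (vv (q a) (q b)) z w W α1 ξ1 hx hy hW (x1.trans a1.le)
    (cr1 (q s) (q t) (q a) (q b))
  have c2 := hcone K hK (q t) (q s) (vv (q c) (q d)) w z W α2 ξ2 hy hx hW (x2.trans a2.le)
    (cr2 (q s) (q t) (q c) (q d))
  have hz := abs_le.1 (hK.ht _ _ hx)
  have hw := abs_le.1 (hK.ht _ _ hy)
  have b1 : 0 < α1 - |ξ2| := by linarith
  have b2 : 0 < α2 - |ξ1| := by linarith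
  refine ⟨_, _, _, _, c1.1, c2.1, c1.2, c2.2, ?_, ?_, ?_, ?_⟩
  · have e : (α1 * (1 - z) - |ξ1| * (1 - w)) / W + (α2 * (1 - w) - |ξ2| * (1 - z)) / W =
        ((α1 - |ξ2|) * (1 - z) + (α2 - |ξ1|) * (1 - w)) / W := by ring
    rw [e]
    have m1 := mul_nonneg b1.le (by linarith : (0 : ℝ) ≤ 1 - z)
    have m2 := mul_nonneg b2.le (by linarith : (0 : ℝ) ≤ 1 - w)
    positivity
  · intro h
    have e : (α1 * (1 - z) - |ξ1| * (1 - w)) / W + (α2 * (1 - w) - |ξ2| * (1 - z)) / W =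
        ((α1 - |ξ2|) * (1 - z) + (α2 - |ξ1|) * (1 - w)) / W := by ring
    rw [e, div_eq_zero_iff] at h
    have h := h.resolve_right hW.ne'
    have m1 := mul_nonneg b1.le (by linarith : (0 : ℝ) ≤ 1 - z)
    have m2 := mul_nonneg b2.le (by linarith : (0 : ℝ) ≤ 1 - w)
    have n1 : (α1 - |ξ2|) * (1 - z) = 0 := by linarith
    have n2 : (α2 - |ξ1|) * (1 - w) = 0 := by linarith
    have o1 := (mul_eq_zero.1 n1).resolve_left b1.ne'
    have o2 := (mul_eq_zero.1 n2).resolve_left b2.ne'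
    exact ⟨by linarith, by linarith⟩
  · have e : (-(α1 * (1 + z)) + |ξ1| * (1 + w)) / W + (-(α2 * (1 + w)) + |ξ2| * (1 + z)) / W =
        -(((α1 - |ξ2|) * (1 + z) + (α2 - |ξ1|) * (1 + w)) / W) := by ring
    rw [e]
    have m1 := mul_nonneg b1.le (by linarith : (0 : ℝ) ≤ 1 + z)
    have m2 := mul_nonneg b2.le (by linarith : (0 : ℝ) ≤ 1 + w)
    have m3 : 0 ≤ ((α1 - |ξ2|) * (1 + z) + (α2 - |ξ1|) * (1 + w)) / W := by positivity
    linarith
  · intro h
    have e : (-(α1 * (1 + z)) + |ξ1| * (1 + w)) / W + (-(α2 * (1 + w)) + |ξ2| * (1 + z)) / W =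
        -(((α1 - |ξ2|) * (1 + z) + (α2 - |ξ1|) * (1 + w)) / W) := by ring
    rw [e, neg_eq_zero, div_eq_zero_iff] at h
    have h := h.resolve_right hW.ne'
    have m1 := mul_nonneg b1.le (by linarith : (0 : ℝ) ≤ 1 + z)
    have m2 := mul_nonneg b2.le (by linarith : (0 : ℝ) ≤ 1 + w)
    have n1 : (α1 - |ξ2|) * (1 + z) = 0 := by linarith
    have n2 : (α2 - |ξ1|) * (1 + w) = 0 := by linarith
    have o1 := (mul_eq_zero.1 n1).resolve_left b1.ne'
    have o2 := (mul_eq_zero.1 n2).resolve_left b2.ne'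
    exact ⟨by linarith, by linarith⟩

theorem Qthm (hP : S_P) (htc : S_TC) (hcone : S_cone) (hinw : S_inw) (hhel : S_hel) (h1 : S_KL1)
    (h2 : S_KL2) : S_Q := by
  intro K hK q hq a b c d hab hbc hcd hda hab2 hcd2 hG1 hG2
  obtain ⟨s, z, s', z', hs1, hs2, hs1', hs2', hx, hx', hkl⟩ :=
    arc hP htc hinw hhel h1 hK hq hab (by linarith) hab2 hG1
  obtain ⟨t, w, t', w', ht1, ht2, ht1', ht2', hy, hy', hkl'⟩ :=
    arc hP htc hinw hhel h1 hK hq hcd (by linarith) hcd2 hG2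
  obtain ⟨k1, k2, -, -, hk1, hk2, -, -, hnn, heq, -, -⟩ :=
    pair hcone h1 h2 hK hq hab hbc hcd hda hab2 hcd2 hs1' hs2' ht1' ht2' hx' hy'
  obtain ⟨-, -, l1, l2, -, -, hl1, hl2, -, -, hnp, heq'⟩ :=
    pair hcone h1 h2 hK hq hab hbc hcd hda hab2 hcd2 hs1 hs2 ht1 ht2 hx hy
  have g1 := hkl k1 l1 hk1 hl1
  have g2 := hkl' k2 l2 hk2 hl2
  obtain ⟨e1, e2⟩ := heq (by linarith)
  obtain ⟨e3, e4⟩ := heq' (by linarith)
  subst e1 e2 e3 e4
  exact ⟨⟨⟨s', hs1', hs2', hx'⟩, ⟨s, hs1, hs2, hx⟩⟩, ⟨⟨t', ht1', ht2', hy'⟩, ⟨t, ht1, ht2, hy⟩⟩⟩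

end Pool.Agent.H139.HT
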